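import Mathlib
import Pool.Agent.X75A.FixRad

/-!
# Exceptions to Oesterlé's inequality one member of which has a given radical

For every `ε > 0` there is an `M` such that for every `k`: uniformly in `r` at most
`C X ^ ε (X / r) ^ (1/4)` abc-triples with `rad (abc) ≤ X` and `rad (abc) ^ M ≤ c ≤ X ^ k` have a
member of radical `r`, for instance a given member `m`; at most `C X ^ ε √W` of these have another
member of radical `≤ W`.

Proof. There are `X ^ o(1)` integers `≤ X ^ k` of radical `r`, so let the member `m` be given. Put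
`Y = min (X, c ^ (1/M))`. If one of the other two members, `f` say, is divisible by `ρ ^ N` with
`Y ^ (γ/2) < ρ ≤ Y ^ γ`, the last member is in one residue class modulo `ρ ^ N`, and the
multiplicative energy of the integers with radical about `u` modulo `ρ ^ N` (starting library) shows
that the class contains at most `u ^ (1/2) Y ^ η` of them. If the member `p` is divisible by such a
`ρ ^ N` and the last member is a product of powers of few bounded integers, there are only `Y ^ η`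
possibilities (starting library `N745`, `Y913`); the same is true if both are such products.
-/

set_option autoImplicit false

namespace Pool.Agent.Results.MP_2ec8a3_nt.GivenRadicalMember

open Pool.Agent.X75A

/-- the radical: product of the distinct primes dividing `n` -/
def radical (n : ℕ) : ℕ := ∏ p ∈ n.primeFactors, p

/-- the abc-triples `(a, b, c)`: positive integers, `a + b = c`, `gcd (a, b) = 1` -/
def IsTriple (t : ℕ × ℕ × ℕ) : Prop :=
  0 < t.1 ∧ 0 < t.2.1 ∧ Nat.Coprime t.1 t.2.1 ∧ t.1 + t.2.1 = t.2.2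

/-- the radical of `abc` -/
def rad3 (t : ℕ × ℕ × ℕ) : ℕ := radical (t.1 * t.2.1 * t.2.2)

/-- the exceptions: the abc-triples with `rad (abc) ≤ X` and `rad (abc) ^ M ≤ c ≤ X ^ k` -/
def Large (M k X : ℕ) : Set (ℕ × ℕ × ℕ) :=
  {t | IsTriple t ∧ rad3 t ≤ X ∧ rad3 t ^ M ≤ t.2.2 ∧ t.2.2 ≤ X ^ k}

/-- a member has radical `r`, and another one has radical at most `W` -/
def Members (r W : ℕ) (t : ℕ × ℕ × ℕ) : Prop :=
  (radical t.1 = r ∧ (radical t.2.1 ≤ W ∨ radical t.2.2 ≤ W)) ∨
    (radical t.2.1 = r ∧ (radical t.1 ≤ W ∨ radical t.2.2 ≤ W)) ∨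
      (radical t.2.2 = r ∧ (radical t.1 ≤ W ∨ radical t.2.1 ≤ W))

theorem fin_aux (Z : Set (ℕ × ℕ × ℕ)) (N : ℕ)
    (h : ∀ t ∈ Z, t.1 + t.2.1 = t.2.2 ∧ t.2.2 ≤ N) : Z.Finite := by
  refine Set.Finite.subset (Finset.finite_toSet
      ((Finset.range (N + 1)) ×ˢ (Finset.range (N + 1)) ×ˢ (Finset.range (N + 1)))) ?_
  rintro ⟨a, b, c⟩ ht
  obtain ⟨h4, h6⟩ := h _ ht
  simp only at h4 h6
  simp only [Finset.coe_product, Set.mem_prod, Finset.coe_range, Set.mem_Iio]
  omega

theorem large_fin (M k X : ℕ) : (Large M k X).Finite :=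
  fin_aux _ (X ^ k) fun _ ht => ⟨ht.1.2.2.2, ht.2.2.2⟩

theorem exc_of {M k X : ℕ} {t : ℕ × ℕ × ℕ} (h : t ∈ Large M k X) : Exc M k X t := by
  obtain ⟨⟨ha, hb, hab, habc⟩, h1, h2, h3⟩ := h
  refine ⟨⟨ha, hb, by omega, habc, hab, ?_, ?_⟩, h1, h2, h3⟩
  · rw [← habc]
    simpa using hab
  · rw [← habc]
    simpa using hab.symm

theorem radical_pos (n : ℕ) : 1 ≤ radical n := by
  unfold radical
  exact Nat.one_le_iff_ne_zero.2
    (Finset.prod_ne_zero_iff.2 fun p hp => (Nat.prime_of_mem_primeFactors hp).ne_zero)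

theorem rad3_eq {t : ℕ × ℕ × ℕ} (h : IsTriple t) :
    rad3 t = radical t.1 * radical t.2.1 * radical t.2.2 := by
  obtain ⟨h1, h2, h3, h4⟩ := h
  have h5 : Nat.Coprime t.1 t.2.2 := by rw [← h4]; simpa using h3
  have h6 : Nat.Coprime t.2.1 t.2.2 := by rw [← h4]; simpa using h3.symm
  unfold rad3 radical
  rw [Nat.Coprime.primeFactors_mul (Nat.Coprime.mul_left h5 h6), Nat.Coprime.primeFactors_mul h3,
    Finset.prod_union, Finset.prod_union]
  · exact h3.disjoint_primeFactors
  · rw [← Nat.Coprime.primeFactors_mul h3]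
    exact (Nat.Coprime.mul_left h5 h6).disjoint_primeFactors

theorem radSmall_of {r W : ℕ} {t : ℕ × ℕ × ℕ} (h : Members r W t) : RadSmall r W t := by
  rcases h with ⟨h1, h2 | h2⟩ | ⟨h1, h2 | h2⟩ | ⟨h1, h2 | h2⟩
  · exact ⟨1, 0, by decide, h2, h1⟩
  · exact ⟨2, 0, by decide, h2, h1⟩
  · exact ⟨0, 1, by decide, h2, h1⟩
  · exact ⟨2, 1, by decide, h2, h1⟩
  · exact ⟨0, 2, by decide, h2, h1⟩
  · exact ⟨1, 2, by decide, h2, h1⟩

/-- the smaller one of two integers whose product with `r` is at most `X` -/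
theorem aux_min {r x y X : ℕ} (hr : 1 ≤ r) (h : r * (x * y) ≤ X) :
    x ≤ Nat.sqrt (X / r) ∨ y ≤ Nat.sqrt (X / r) := by
  have h1 : x * y ≤ X / r := by
    rw [Nat.le_div_iff_mul_le hr, mul_comm]
    exact h
  rcases le_total x y with h2 | h2
  · left
    exact Nat.le_sqrt.2 ((Nat.mul_le_mul_left x h2).trans h1)
  · right
    exact Nat.le_sqrt.2 ((Nat.mul_le_mul_right y h2).trans h1)

theorem members_of {r X : ℕ} {t : ℕ × ℕ × ℕ} (ht : IsTriple t) (hX : rad3 t ≤ X)
    (h : radical t.1 = r ∨ radical t.2.1 = r ∨ radical t.2.2 = r) :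
    Members r (Nat.sqrt (X / r)) t := by
  rw [rad3_eq ht] at hX
  rcases h with h | h | h
  · refine Or.inl ⟨h, aux_min (by rw [← h]; exact radical_pos _) ?_⟩
    rw [← h]
    calc _ = radical t.1 * radical t.2.1 * radical t.2.2 := by ring
      _ ≤ X := hX
  · refine Or.inr (Or.inl ⟨h, aux_min (by rw [← h]; exact radical_pos _) ?_⟩)
    rw [← h]
    calc _ = radical t.1 * radical t.2.1 * radical t.2.2 := by ring
      _ ≤ X := hX
  · refine Or.inr (Or.inr ⟨h, aux_min (by rw [← h]; exact radical_pos _) ?_⟩)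
    rw [← h]
    calc _ = radical t.1 * radical t.2.1 * radical t.2.2 := by ring
      _ ≤ X := hX

theorem main_bound {M k X W r : ℕ} {C ε : ℝ}
    (h : ∀ T : Finset (ℕ × ℕ × ℕ), (∀ t ∈ T, Exc M k X t ∧ RadSmall r W t) →
      (T.card : ℝ) ≤ C * (X : ℝ) ^ ε * Real.sqrt W) :
    ({t ∈ Large M k X | Members r W t}.ncard : ℝ) ≤ C * (X : ℝ) ^ ε * Real.sqrt W := by
  have hfin : {t ∈ Large M k X | Members r W t}.Finite :=
    (large_fin M k X).subset fun t ht => ht.1
  rw [Set.ncard_eq_toFinset_card _ hfin]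
  apply h
  intro t ht
  rw [Set.Finite.mem_toFinset] at ht
  exact ⟨exc_of ht.1, radSmall_of ht.2⟩

/-- **Exceptions one member of which has a given radical.** For every `ε > 0` there is `M` such that
for every `k` there is `C` such that for all `X, W ≥ 1` and `r`: (1) at most `C X ^ ε √W` abc-triples
with `rad (abc) ≤ X` and `rad (abc) ^ M ≤ c ≤ X ^ k` have a member of radical `r` and another member
of radical at most `W`; (2) at most `C X ^ ε (X / r) ^ (1/4)` of them have a member of radical `r`;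
(3) at most `C X ^ ε (X / rad m) ^ (1/4)` of them have the member `m ≥ 1`. -/
theorem result (ε : ℝ) (hε : 0 < ε) : ∃ M : ℕ, ∀ k : ℕ, ∃ C : ℝ,
    (∀ X W r : ℕ, 1 ≤ X → 1 ≤ W → (Large M k X).Finite ∧
      ({t ∈ Large M k X | Members r W t}.ncard : ℝ) ≤ C * (X : ℝ) ^ ε * Real.sqrt W) ∧
    (∀ X r : ℕ, 1 ≤ X → 1 ≤ r →
      ({t ∈ Large M k X | radical t.1 = r ∨ radical t.2.1 = r ∨ radical t.2.2 = r}.ncard : ℝ) ≤
      C * (X : ℝ) ^ ε * ((X : ℝ) / r) ^ ((1 : ℝ) / 4)) ∧
    (∀ X m : ℕ, 1 ≤ X → 1 ≤ m →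
      ({t ∈ Large M k X | t.1 = m ∨ t.2.1 = m ∨ t.2.2 = m}.ncard : ℝ) ≤
      C * (X : ℝ) ^ ε * ((X : ℝ) / radical m) ^ ((1 : ℝ) / 4)) := by
  obtain ⟨M, -, h⟩ := count_rad_small ε hε
  refine ⟨M, fun k => ?_⟩
  obtain ⟨C, hC, h⟩ := h k
  have key : ∀ X r : ℕ, 1 ≤ X → 1 ≤ r →
      ({t ∈ Large M k X | radical t.1 = r ∨ radical t.2.1 = r ∨ radical t.2.2 = r}.ncard : ℝ) ≤
      C * (X : ℝ) ^ ε * ((X : ℝ) / r) ^ ((1 : ℝ) / 4) := by
    intro X r hX hr
    have hr0 : (0 : ℝ) < r := by exact_mod_cast hr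
    have hX0 : (0 : ℝ) < X := by exact_mod_cast hX
    rcases Nat.lt_or_ge X r with hlt | hle
    · -- no such triple
      have hemp : {t ∈ Large M k X | radical t.1 = r ∨ radical t.2.1 = r ∨ radical t.2.2 = r} =
          ∅ := by
        rw [Set.eq_empty_iff_forall_notMem]
        rintro t ⟨ht, h1⟩
        have h2 := ht.2.1
        rw [rad3_eq ht.1] at h2
        have g1 := radical_pos t.1
        have g2 := radical_pos t.2.1
        have g3 := radical_pos t.2.2
        have e1 : radical t.1 ≤ radical t.1 * radical t.2.1 * radical t.2.2 := by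
          rw [mul_assoc]
          exact Nat.le_mul_of_pos_right _ (Nat.mul_pos g2 g3)
        have e2 : radical t.2.1 ≤ radical t.1 * radical t.2.1 * radical t.2.2 := by
          calc radical t.2.1 ≤ radical t.2.1 * (radical t.1 * radical t.2.2) :=
                Nat.le_mul_of_pos_right _ (Nat.mul_pos g1 g3)
            _ = _ := by ring
        have e3 : radical t.2.2 ≤ radical t.1 * radical t.2.1 * radical t.2.2 :=
          Nat.le_mul_of_pos_left _ (Nat.mul_pos g1 g2)
        rcases h1 with h1 | h1 | h1 <;> omega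
      rw [hemp, Set.ncard_empty, Nat.cast_zero]
      positivity
    have hd : 1 ≤ X / r := Nat.div_pos hle hr
    have hW : 1 ≤ Nat.sqrt (X / r) := Nat.le_sqrt.2 (by simpa using hd)
    refine le_trans ?_ ((main_bound (h X (Nat.sqrt (X / r)) r hX hW)).trans ?_)
    · have hsub : {t ∈ Large M k X | radical t.1 = r ∨ radical t.2.1 = r ∨ radical t.2.2 = r} ⊆
          {t ∈ Large M k X | Members r (Nat.sqrt (X / r)) t} := by
        rintro t ⟨ht, h1⟩
        exact ⟨ht, members_of ht.1 ht.2.1 h1⟩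
      exact_mod_cast Set.ncard_le_ncard hsub ((large_fin M k _).subset fun t ht => ht.1)
    · apply mul_le_mul_of_nonneg_left _ (by positivity)
      have h1 : ((Nat.sqrt (X / r) : ℕ) : ℝ) ≤ ((X : ℝ) / r) ^ ((1 : ℝ) / 2) := by
        rw [← Real.sqrt_eq_rpow]
        refine (Real.nat_sqrt_le_real_sqrt (a := X / r)).trans ?_
        exact Real.sqrt_le_sqrt Nat.cast_div_le
      rw [Real.sqrt_eq_rpow]
      calc ((Nat.sqrt (X / r) : ℕ) : ℝ) ^ ((1 : ℝ) / 2)
          ≤ (((X : ℝ) / r) ^ ((1 : ℝ) / 2)) ^ ((1 : ℝ) / 2) :=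
            Real.rpow_le_rpow (Nat.cast_nonneg _) h1 (by norm_num)
        _ = ((X : ℝ) / r) ^ ((1 : ℝ) / 4) := by
            rw [← Real.rpow_mul (by positivity)]
            norm_num
  refine ⟨C, fun X W r hX hW => ⟨large_fin M k X, main_bound (h X W r hX hW)⟩, key, ?_⟩
  intro X m hX hm
  refine le_trans ?_ (key X (radical m) hX (radical_pos m))
  have hsub : {t ∈ Large M k X | t.1 = m ∨ t.2.1 = m ∨ t.2.2 = m} ⊆
      {t ∈ Large M k X | radical t.1 = radical m ∨ radical t.2.1 = radical m ∨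
        radical t.2.2 = radical m} := by
    rintro t ⟨ht, h1 | h1 | h1⟩
    · exact ⟨ht, Or.inl (by rw [h1])⟩
    · exact ⟨ht, Or.inr (Or.inl (by rw [h1]))⟩
    · exact ⟨ht, Or.inr (Or.inr (by rw [h1]))⟩
  exact_mod_cast Set.ncard_le_ncard hsub ((large_fin M k _).subset fun t ht => ht.1)

end Pool.Agent.Results.MP_2ec8a3_nt.GivenRadicalMember
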