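import Mathlib
import Pool.Agent.T2h82.As.LawS

/-!
# The abc triples with a member that is a perfect power, ordered by radical

The abc triples one of whose members is a perfect power are ordered by the radical `R`, in any
polynomial range `c ≤ X ^ k`, `k > 2 / 5`. Their number with `R ≤ X` is asymptotic to
`S X ^ (3 / 5)` with an explicit constant `S > 0` (an area times an Euler product), the quotient
`c / R ^ (2 / 5)` has a limit distribution, and all but `C X ^ (3 / 5 - ν)` of the triples satisfy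
`R ^ (2 / 5 - δ) < c < R ^ (2 / 5 + δ)`.
-/

set_option autoImplicit false

open MeasureTheory Filter Topology

namespace Pool.Agent.Results.MP_2ec8a3_nt.PowerMemberLaw

/-- the radical: the product of the distinct primes dividing `n` -/
def rad (n : ℕ) : ℕ := ∏ p ∈ n.primeFactors, p

/-- `n = w ^ m` with `w ≥ 2` and `m ≥ 2` -/
def IsPerfectPower (n : ℕ) : Prop := ∃ w m : ℕ, 2 ≤ w ∧ 2 ≤ m ∧ n = w ^ m

/-- `(a, b, c)` is an abc triple: `a ≤ b` are coprime positive integers and `a + b = c` -/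
def IsTriple (t : ℕ × ℕ × ℕ) : Prop :=
  0 < t.1 ∧ t.1 ≤ t.2.1 ∧ Nat.Coprime t.1 t.2.1 ∧ t.1 + t.2.1 = t.2.2

/-- the radical of `a b c` -/
def R (t : ℕ × ℕ × ℕ) : ℕ := rad (t.1 * t.2.1 * t.2.2)

/-- the abc triples at least one member of which is a perfect power, with radical at most `X` and
`c ≤ X ^ k` -/
def triples (k X : ℝ) : Set (ℕ × ℕ × ℕ) :=
  {t | IsTriple t ∧ (IsPerfectPower t.1 ∨ IsPerfectPower t.2.1 ∨ IsPerfectPower t.2.2) ∧
    (R t : ℝ) ≤ X ∧ (t.2.2 : ℝ) ≤ X ^ k}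

/-- those for which `R ^ (2 / 5 - δ) < c < R ^ (2 / 5 + δ)` does not hold -/
def exceptions (k δ X : ℝ) : Set (ℕ × ℕ × ℕ) :=
  {t | t ∈ triples k X ∧
    ¬ ((R t : ℝ) ^ (2 / 5 - δ) < (t.2.2 : ℝ) ∧ (t.2.2 : ℝ) < (R t : ℝ) ^ (2 / 5 + δ))}

/-- the points of the plane with `|x| |u| |x ^ 2 - u| ≤ 1` -/
def region : Set (ℝ × ℝ) := {p | |p.1| * (|p.2| * |p.1 ^ 2 - p.2|) ≤ 1}

/-- the factor of the Euler product at the prime `p` -/
noncomputable def factor (p : ℕ) : ℝ :=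
  (1 - 1 / (p : ℝ)) * (1 - 2 / (p : ℝ) + 3 * (p - 1) / (p * (p - (p : ℝ) ^ (3 / 5 : ℝ))))

/-- the constant -/
noncomputable def S : ℝ := 1 / 4 * ((volume region).toReal * ∏' p : Nat.Primes, factor p)

/-- **Theorem.** The area and the Euler product are finite and `S > 0`. For every `k > 2 / 5` the
number of the abc triples at least one member of which is a perfect power, with radical `R ≤ X` and
`c ≤ X ^ k`, is asymptotic to `S X ^ (3 / 5)`. There is a nondecreasing function `G`, the same for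
all `k > 2 / 5`, which vanishes on `τ < 1` and tends to `S` at infinity, such that the number of
those with `c ≤ τ R ^ (2 / 5)` divided by `X ^ (3 / 5)` tends to `G τ` for every `τ`. For every
`δ > 0` all but at most `C X ^ (3 / 5 - ν)` of the triples satisfy
`R ^ (2 / 5 - δ) < c < R ^ (2 / 5 + δ)`, with `ν > 0`. -/
theorem result :
    (volume region ≠ ⊤ ∧ Multipliable (fun p : Nat.Primes => factor p) ∧ 0 < S) ∧
    (∀ k : ℝ, 2 / 5 < k → (∀ X : ℝ, (triples k X).Finite) ∧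
      Tendsto (fun X : ℝ => ((triples k X).ncard : ℝ) / X ^ (3 / 5 : ℝ)) atTop (𝓝 S)) ∧
    (∃ G : ℝ → ℝ, Monotone G ∧ (∀ τ : ℝ, τ < 1 → G τ = 0) ∧ Tendsto G atTop (𝓝 S) ∧
      ∀ k : ℝ, 2 / 5 < k → ∀ τ : ℝ, Tendsto (fun X : ℝ =>
        (({t | t ∈ triples k X ∧ (t.2.2 : ℝ) ≤ τ * (R t : ℝ) ^ (2 / 5 : ℝ)}.ncard : ℕ) : ℝ) /
          X ^ (3 / 5 : ℝ)) atTop (𝓝 (G τ))) ∧
    ∀ k δ : ℝ, 2 / 5 < k → 0 < δ → ∃ ν C : ℝ, 0 < ν ∧ 0 < C ∧ ∀ X : ℝ, 1 ≤ X →
      ((exceptions k δ X).ncard : ℝ) ≤ C * X ^ (3 / 5 - ν) := by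
  have e : ∀ k X : ℝ, triples k X = Pool.Agent.T2h82.Sq.Tr k X (Pool.Agent.T2h82.As.Pc 0 1) := by
    intro k X
    ext t
    constructor
    · rintro ⟨a, b, c, d⟩
      refine ⟨a, b, c, d, ?_⟩
      unfold Pool.Agent.T2h82.As.Pc
      rw [zero_mul, one_mul]
      positivity
    · rintro ⟨a, b, c, d, -⟩
      exact ⟨a, b, c, d⟩
  have e' : ∀ k δ X : ℝ, exceptions k δ X = Pool.Agent.T2h82.Sq.Tr k X
      (fun t => ¬ ((Pool.Agent.T2h82.Sq.R3 t : ℝ) ^ (2 / 5 - δ) < (t.2.2 : ℝ) ∧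
        (t.2.2 : ℝ) < (Pool.Agent.T2h82.Sq.R3 t : ℝ) ^ (2 / 5 + δ))) := by
    intro k δ X
    ext t
    constructor
    · rintro ⟨⟨a, b, c, d⟩, f⟩
      exact ⟨a, b, c, d, f⟩
    · rintro ⟨a, b, c, d, f⟩
      exact ⟨⟨a, b, c, d⟩, f⟩
  have hreg : region = Pool.Agent.T2h82.As.Lev 1 1 1 := by
    ext p
    unfold region Pool.Agent.T2h82.As.Lev
    rw [Set.mem_ofPred_eq, Set.mem_ofPred_eq, pow_one, one_mul]
  have hfac : (fun p : Nat.Primes => factor p) =
      (fun p : Nat.Primes => Pool.Agent.T2h82.As.lc 1 (3 / 5) (3 / 5) p) := by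
    funext p
    rw [Pool.Agent.T2h82.As.lc_eqS p.2]
    rfl
  have hS : S = Pool.Agent.T2h82.As.c1 := by
    unfold S Pool.Agent.T2h82.As.c1
    rw [hreg, hfac]
  obtain ⟨h1, h2, -, -⟩ := Pool.Agent.T2h82.As.countS 1 (by norm_num)
  refine ⟨⟨by rw [hreg]; exact h1, by rw [hfac]; exact h2,
    by rw [hS]; exact Pool.Agent.T2h82.As.c1_pos⟩, fun k hk => ⟨fun X => ?_, ?_⟩, ?_,
    fun k δ hk hδ => ?_⟩
  · rw [e k X]
    exact Pool.Agent.T2h82.Sq.tr_finite _ _ _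
  · rw [hS]
    simp_rw [e]
    exact Pool.Agent.T2h82.As.convS k _ _ (Pool.Agent.T2h82.As.countS k hk).2.2.2
  · obtain ⟨G, g1, g2, g3, g4, g5⟩ := Pool.Agent.T2h82.As.lawS
    have hpos : ∀ τ : ℝ, 0 < τ → 0 < τ ^ 5 := fun τ h => by positivity
    refine ⟨fun τ => if 0 < τ then G (τ ^ 5) else 0, ?_, ?_, ?_, fun k hk τ => ?_⟩
    · intro τ τ' h
      simp only
      split_ifs with c1 c2 c2
      · exact g1 (hpos τ c1) (hpos τ' c2) (pow_le_pow_left₀ c1.le h 5)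
      · exact absurd (lt_of_lt_of_le c1 h) c2
      · exact g3 _ (hpos τ' c2)
      · exact le_rfl
    · intro τ h
      simp only
      split_ifs with c1
      · exact g2 _ (hpos τ c1) (pow_lt_one₀ c1.le h (by norm_num))
      · rfl
    · rw [hS]
      refine (g4.comp (tendsto_pow_atTop (by norm_num : (5 : ℕ) ≠ 0))).congr' ?_
      filter_upwards [eventually_gt_atTop 0] with τ h
      simp only [Function.comp]
      rw [if_pos h]
    · simp only
      split_ifs with c1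
      · have hset : ∀ X : ℝ, {t | t ∈ triples k X ∧ (t.2.2 : ℝ) ≤ τ * (R t : ℝ) ^ (2 / 5 : ℝ)} =
            Pool.Agent.T2h82.Sq.Tr k X (Pool.Agent.T2h82.As.Pc 1 (τ ^ 5)) := by
          intro X
          ext t
          constructor
          · rintro ⟨⟨a, b, c, d⟩, f⟩
            exact ⟨a, b, c, d, (Pool.Agent.T2h82.As.pc_rpow c1 t).1 f⟩
          · rintro ⟨a, b, c, d, f⟩
            exact ⟨⟨a, b, c, d⟩, (Pool.Agent.T2h82.As.pc_rpow c1 t).2 f⟩
        simp_rw [hset]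
        exact Pool.Agent.T2h82.As.convS k _ _ (g5 k hk (τ ^ 5) (hpos τ c1))
      · have hset : ∀ X : ℝ, {t | t ∈ triples k X ∧ (t.2.2 : ℝ) ≤ τ * (R t : ℝ) ^ (2 / 5 : ℝ)} =
            ∅ := by
          intro X
          rw [Set.eq_empty_iff_forall_notMem]
          rintro t ⟨⟨⟨a1, a2, a3, a4⟩, b, c, d⟩, f⟩
          have h3 : (0 : ℝ) < (t.2.2 : ℝ) := by
            have : 0 < t.2.2 := by omega
            exact_mod_cast this
          have h4 : τ * (R t : ℝ) ^ (2 / 5 : ℝ) ≤ 0 :=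
            mul_nonpos_of_nonpos_of_nonneg (not_lt.1 c1) (by positivity)
          linarith
        simp_rw [hset]
        simp
  · obtain ⟨ν, C, hν, hC, h⟩ := Pool.Agent.T2h82.Sq.law k δ hδ
    refine ⟨ν, C, hν, hC, fun X hX => ?_⟩
    rw [e' k δ X]
    exact h X hX

end Pool.Agent.Results.MP_2ec8a3_nt.PowerMemberLaw
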