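import Mathlib
import Pool.Agent.X75A.DivCount

/-!
# Exceptions to Oesterlé's inequality divisible by given primes

For every `ε > 0` there is an `M` such that for every `k`: uniformly in `r` at most
`C X ^ ε (X / r) ^ (1/3)` abc-triples with `rad (abc) ≤ X` and `rad (abc) ^ M ≤ c ≤ X ^ k` are such
that `r` divides `rad (abc)`. Hence two exceptions rarely have many primes in common: at most
`C X ^ ε X ^ (2/3) / G ^ (1/3)` pairs of exceptions have radicals with a common divisor `≥ G`.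

Proof. Let `r = d₀ d₁ d₂` with `dⱼ` dividing the radical `uⱼ` of the `j`-th member; there are
`X ^ o(1)` such factorisations. Put `Y = min (X, c ^ (1/M))`. A member is called dusty if it is
divisible by `ρ ^ N` with `Y ^ (γ/2) < ρ ≤ Y ^ γ`, otherwise it is a product of powers of few bounded
integers (starting library `N745`). If the third member is dusty, the Cauchy-Schwarz inequality over
the residue classes modulo a power of `ρ` gives the square root of the product of the numbers of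
pairs of `p`-th and of `q`-th members in a common class. In such a pair the primes of `dⱼ` occur with
one of `X ^ o(1)` patterns of exponents; after a division by them the bound for the multiplicative
energy (starting library) gives `uⱼ / dⱼ` in place of `uⱼ`. The other cases give at most
`min (u_p / d_p, u_q / d_q)`. The smallest product of two of the three numbers `uⱼ / dⱼ` is at most
`(X / r) ^ (2/3)`.
-/

set_option autoImplicit false

namespace Pool.Agent.Results.MP_2ec8a3_nt.PrescribedPrimes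

open Pool.Agent.X75A

/-- the radical: product of the distinct primes dividing `n` -/
def radical (n : ℕ) : ℕ := ∏ p ∈ n.primeFactors, p

/-- the abc-triples `(a, b, c)`: positive integers, `a + b = c`, `gcd (a, b) = 1` -/
def IsTriple (t : ℕ × ℕ × ℕ) : Prop :=
  0 < t.1 ∧ 0 < t.2.1 ∧ Nat.Coprime t.1 t.2.1 ∧ t.1 + t.2.1 = t.2.2

/-- the radical of `abc` -/
def rad3 (t : ℕ × ℕ × ℕ) : ℕ := radical (t.1 * t.2.1 * t.2.2)

/-- the exceptions: the abc-triples with `rad (abc) ≤ X` and `rad (abc) ^ M ≤ c ≤ X ^ k` -/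
def Large (M k X : ℕ) : Set (ℕ × ℕ × ℕ) :=
  {t | IsTriple t ∧ rad3 t ≤ X ∧ rad3 t ^ M ≤ t.2.2 ∧ t.2.2 ≤ X ^ k}

theorem fin_aux (Z : Set (ℕ × ℕ × ℕ)) (N : ℕ)
    (h : ∀ t ∈ Z, t.1 + t.2.1 = t.2.2 ∧ t.2.2 ≤ N) : Z.Finite := by
  refine Set.Finite.subset (Finset.finite_toSet
      ((Finset.range (N + 1)) ×ˢ (Finset.range (N + 1)) ×ˢ (Finset.range (N + 1)))) ?_
  rintro ⟨a, b, c⟩ ht
  obtain ⟨h4, h6⟩ := h _ ht
  simp only at h4 h6
  simp only [Finset.coe_product, Set.mem_prod, Finset.coe_range, Set.mem_Iio]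
  omega

theorem large_fin (M k X : ℕ) : (Large M k X).Finite :=
  fin_aux _ (X ^ k) fun _ ht => ⟨ht.1.2.2.2, ht.2.2.2⟩

theorem exc_of {M k X : ℕ} {t : ℕ × ℕ × ℕ} (h : t ∈ Large M k X) : Exc M k X t := by
  obtain ⟨⟨ha, hb, hab, habc⟩, h1, h2, h3⟩ := h
  refine ⟨⟨ha, hb, by omega, habc, hab, ?_, ?_⟩, h1, h2, h3⟩
  · rw [← habc]
    simpa using hab
  · rw [← habc]
    simpa using hab.symm

theorem rad3_pos (t : ℕ × ℕ × ℕ) : 1 ≤ rad3 t := by
  unfold rad3 radical
  exact Nat.one_le_iff_ne_zero.2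
    (Finset.prod_ne_zero_iff.2 fun p hp => (Nat.prime_of_mem_primeFactors hp).ne_zero)

/-- **Exceptions divisible by given primes.** For every `ε > 0` there is `M` such that for every `k`
there is `C` such that (1) for all `X, r ≥ 1` at most `C X ^ ε (X / r) ^ (1/3)` abc-triples with
`rad (abc) ≤ X` and `rad (abc) ^ M ≤ c ≤ X ^ k` are such that `r` divides `rad (abc)`; (2) for all
`X, G ≥ 1` at most `C X ^ ε X ^ (2/3) / G ^ (1/3)` pairs of such triples have radicals with greatest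
common divisor at least `G`. -/
theorem result (ε : ℝ) (hε : 0 < ε) : ∃ M : ℕ, ∀ k : ℕ, ∃ C : ℝ,
    (∀ X r : ℕ, 1 ≤ X → 1 ≤ r → (Large M k X).Finite ∧
      ({t ∈ Large M k X | r ∣ rad3 t}.ncard : ℝ) ≤
        C * (X : ℝ) ^ ε * ((X : ℝ) / r) ^ ((1 : ℝ) / 3)) ∧
    (∀ X G : ℕ, 1 ≤ X → 1 ≤ G →
      ({s : (ℕ × ℕ × ℕ) × (ℕ × ℕ × ℕ) | s.1 ∈ Large M k X ∧ s.2 ∈ Large M k X ∧
        G ≤ Nat.gcd (rad3 s.1) (rad3 s.2)}.ncard : ℝ) ≤
        C * (X : ℝ) ^ ε * ((X : ℝ) ^ ((2 : ℝ) / 3) / (G : ℝ) ^ ((1 : ℝ) / 3))) := by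
  classical
  obtain ⟨M, -, h⟩ := count_div (ε / 3) (by positivity)
  refine ⟨M, fun k => ?_⟩
  obtain ⟨C, hC, h⟩ := h k
  obtain ⟨D, hD, htau⟩ := Pool.Agent.H705R2.ABC.stmtTau (ε / 3) (by positivity)
  have one : ∀ X r : ℕ, 1 ≤ X → 1 ≤ r →
      ({t ∈ Large M k X | r ∣ rad3 t}.ncard : ℝ) ≤
        C * (X : ℝ) ^ (ε / 3) * ((X : ℝ) / r) ^ ((1 : ℝ) / 3) := by
    intro X r hX hr
    have hfin : {t ∈ Large M k X | r ∣ rad3 t}.Finite :=
      (large_fin M k X).subset fun t ht => ht.1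
    rw [Set.ncard_eq_toFinset_card _ hfin]
    apply h X r hX hr
    intro t ht
    rw [Set.Finite.mem_toFinset] at ht
    exact ⟨exc_of ht.1, ht.2⟩
  refine ⟨C + D * C * C, fun X r hX hr => ⟨large_fin M k X, ?_⟩, fun X G hX hG => ?_⟩
  · have hX1 : (1 : ℝ) ≤ X := by exact_mod_cast hX
    have h1 : (X : ℝ) ^ (ε / 3) ≤ (X : ℝ) ^ ε :=
      Real.rpow_le_rpow_of_exponent_le hX1 (by linarith)
    refine (one X r hX hr).trans ?_
    apply mul_le_mul_of_nonneg_right _ (by positivity)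
    apply mul_le_mul _ h1 (by positivity) (by positivity)
    exact le_add_of_nonneg_right (by positivity)
  · have hX1 : (1 : ℝ) ≤ X := by exact_mod_cast hX
    have hX0 : (0 : ℝ) < X := by linarith
    have hG0 : (0 : ℝ) < G := by exact_mod_cast hG
    have hGp : (0 : ℝ) < (G : ℝ) ^ ((1 : ℝ) / 3) := by positivity
    obtain ⟨F, hF⟩ : ∃ F : Finset (ℕ × ℕ × ℕ), F = (large_fin M k X).toFinset := ⟨_, rfl⟩
    have hFm : ∀ t, t ∈ F ↔ t ∈ Large M k X := fun t => by rw [hF, Set.Finite.mem_toFinset]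
    have hFcard : (F.card : ℝ) ≤ C * (X : ℝ) ^ (ε / 3) * (X : ℝ) ^ ((1 : ℝ) / 3) := by
      have h1 := one X 1 hX le_rfl
      have h2 : {t ∈ Large M k X | 1 ∣ rad3 t} = (F : Set (ℕ × ℕ × ℕ)) := by
        ext t
        rw [Finset.mem_coe, hFm]
        exact ⟨fun h => h.1, fun h => ⟨h, one_dvd _⟩⟩
      rw [h2, Set.ncard_coe_finset, Nat.cast_one, _root_.div_one] at h1
      exact h1
    -- for given `t` the number of `t'`
    have hsec : ∀ t ∈ F, ((F.filter fun t' => G ≤ Nat.gcd (rad3 t) (rad3 t')).card : ℝ) ≤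
        (D * (X : ℝ) ^ (ε / 3)) * (C * (X : ℝ) ^ (ε / 3) *
          ((X : ℝ) ^ ((1 : ℝ) / 3) / (G : ℝ) ^ ((1 : ℝ) / 3))) := by
      intro t ht
      have htL := (hFm t).1 ht
      have hcov : (F.filter fun t' => G ≤ Nat.gcd (rad3 t) (rad3 t')) ⊆
          ((rad3 t).divisors.filter fun r => G ≤ r).biUnion
            fun r => F.filter fun t' => r ∣ rad3 t' := by
        intro t' ht'
        rw [Finset.mem_filter] at ht'
        rw [Finset.mem_biUnion]
        refine ⟨Nat.gcd (rad3 t) (rad3 t'), ?_, ?_⟩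
        · rw [Finset.mem_filter, Nat.mem_divisors]
          exact ⟨⟨Nat.gcd_dvd_left _ _, by have := rad3_pos t; omega⟩, ht'.2⟩
        · rw [Finset.mem_filter]
          exact ⟨ht'.1, Nat.gcd_dvd_right _ _⟩
      have hone : ∀ r ∈ (rad3 t).divisors.filter (fun r => G ≤ r),
          ((F.filter fun t' => r ∣ rad3 t').card : ℝ) ≤ C * (X : ℝ) ^ (ε / 3) *
            ((X : ℝ) ^ ((1 : ℝ) / 3) / (G : ℝ) ^ ((1 : ℝ) / 3)) := by
        intro r hr
        rw [Finset.mem_filter] at hr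
        have hr1 : 1 ≤ r := hG.trans hr.2
        have h1 := one X r hX hr1
        have h2 : {t ∈ Large M k X | r ∣ rad3 t} =
            ((F.filter fun t' => r ∣ rad3 t' : Finset (ℕ × ℕ × ℕ)) : Set (ℕ × ℕ × ℕ)) := by
          ext t
          rw [Finset.coe_filter]
          constructor
          · rintro ⟨a, b⟩
            exact ⟨(hFm t).2 a, b⟩
          · rintro ⟨a, b⟩
            exact ⟨(hFm t).1 a, b⟩
        rw [h2, Set.ncard_coe_finset] at h1
        refine h1.trans ?_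
        apply mul_le_mul_of_nonneg_left _ (by positivity)
        rw [← Real.div_rpow hX0.le hG0.le]
        apply Real.rpow_le_rpow (by positivity) _ (by norm_num)
        apply div_le_div_of_nonneg_left hX0.le hG0
        exact_mod_cast hr.2
      have hcard1 : ((F.filter fun t' => G ≤ Nat.gcd (rad3 t) (rad3 t')).card : ℝ) ≤
          ∑ r ∈ (rad3 t).divisors.filter (fun r => G ≤ r),
            ((F.filter fun t' => r ∣ rad3 t').card : ℝ) := by
        have h3 := (Finset.card_le_card hcov).trans Finset.card_biUnion_le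
        exact_mod_cast h3
      have hcard2 : (((rad3 t).divisors.filter fun r => G ≤ r).card : ℝ) ≤
          D * (X : ℝ) ^ (ε / 3) := by
        calc (((rad3 t).divisors.filter fun r => G ≤ r).card : ℝ) ≤ ((rad3 t).divisors.card : ℝ) := by
              exact_mod_cast Finset.card_filter_le _ _
          _ ≤ D * (rad3 t : ℝ) ^ (ε / 3) := htau (rad3 t) (rad3_pos t)
          _ ≤ D * (X : ℝ) ^ (ε / 3) := by
              apply mul_le_mul_of_nonneg_left _ hD.le
              apply Real.rpow_le_rpow (Nat.cast_nonneg _) _ (by positivity)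
              exact_mod_cast htL.2.1
      refine hcard1.trans ((Finset.sum_le_sum hone).trans ?_)
      rw [Finset.sum_const, nsmul_eq_mul]
      exact mul_le_mul_of_nonneg_right hcard2 (by positivity)
    -- the pairs
    have hset : {s : (ℕ × ℕ × ℕ) × (ℕ × ℕ × ℕ) | s.1 ∈ Large M k X ∧ s.2 ∈ Large M k X ∧
        G ≤ Nat.gcd (rad3 s.1) (rad3 s.2)} =
        (((F ×ˢ F).filter fun s => G ≤ Nat.gcd (rad3 s.1) (rad3 s.2) :
          Finset ((ℕ × ℕ × ℕ) × (ℕ × ℕ × ℕ))) : Set _) := by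
      ext s
      rw [Finset.coe_filter]
      constructor
      · rintro ⟨a, b, c⟩
        exact ⟨Finset.mem_product.2 ⟨(hFm _).2 a, (hFm _).2 b⟩, c⟩
      · rintro ⟨a, c⟩
        have := Finset.mem_product.1 a
        exact ⟨(hFm _).1 this.1, (hFm _).1 this.2, c⟩
    rw [hset, Set.ncard_coe_finset]
    have hcount : ((F ×ˢ F).filter fun s => G ≤ Nat.gcd (rad3 s.1) (rad3 s.2)).card =
        ∑ t ∈ F, (F.filter fun t' => G ≤ Nat.gcd (rad3 t) (rad3 t')).card := by
      rw [Finset.card_filter, Finset.sum_product]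
      apply Finset.sum_congr rfl
      intro t _
      rw [Finset.card_filter]
    rw [hcount]
    push_cast
    refine (Finset.sum_le_sum hsec).trans ?_
    rw [Finset.sum_const, nsmul_eq_mul]
    have e1 : (X : ℝ) ^ ((1 : ℝ) / 3) * (X : ℝ) ^ ((1 : ℝ) / 3) = (X : ℝ) ^ ((2 : ℝ) / 3) := by
      rw [← Real.rpow_add hX0]
      norm_num
    have e2 : (X : ℝ) ^ (ε / 3) * (X : ℝ) ^ (ε / 3) * (X : ℝ) ^ (ε / 3) = (X : ℝ) ^ ε := by
      rw [← Real.rpow_add hX0, ← Real.rpow_add hX0]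
      congr 1
      ring
    calc (F.card : ℝ) * ((D * (X : ℝ) ^ (ε / 3)) * (C * (X : ℝ) ^ (ε / 3) *
          ((X : ℝ) ^ ((1 : ℝ) / 3) / (G : ℝ) ^ ((1 : ℝ) / 3))))
        ≤ (C * (X : ℝ) ^ (ε / 3) * (X : ℝ) ^ ((1 : ℝ) / 3)) * ((D * (X : ℝ) ^ (ε / 3)) *
          (C * (X : ℝ) ^ (ε / 3) * ((X : ℝ) ^ ((1 : ℝ) / 3) / (G : ℝ) ^ ((1 : ℝ) / 3)))) :=
          mul_le_mul_of_nonneg_right hFcard (by positivity)
      _ = (D * C * C) * ((X : ℝ) ^ (ε / 3) * (X : ℝ) ^ (ε / 3) * (X : ℝ) ^ (ε / 3)) *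
          (((X : ℝ) ^ ((1 : ℝ) / 3) * (X : ℝ) ^ ((1 : ℝ) / 3)) / (G : ℝ) ^ ((1 : ℝ) / 3)) := by
          ring
      _ = (D * C * C) * (X : ℝ) ^ ε * ((X : ℝ) ^ ((2 : ℝ) / 3) / (G : ℝ) ^ ((1 : ℝ) / 3)) := by
          rw [e1, e2]
      _ ≤ _ := by
          apply mul_le_mul_of_nonneg_right _ (by positivity)
          apply mul_le_mul_of_nonneg_right _ (by positivity)
          exact le_add_of_nonneg_left hC.le

end Pool.Agent.Results.MP_2ec8a3_nt.PrescribedPrimes
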