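import Mathlib
import Pool.Agent.X75A.Count

/-!
# Exceptions to Oesterlé's inequality, counted by the two smallest radicals of the members

For every `ε > 0` there is an `M` such that for every `k`: among the abc-triples with
`rad (abc) ≤ X` and `rad (abc) ^ M ≤ c ≤ X ^ k` at most `C X ^ ε √Z` have two members the product of
whose radicals is `≤ Z`. So a box `rad a ≤ A`, `rad b ≤ B`, `rad c ≤ D` contains at most
`C (A B D) ^ ε √(min (A B, B D, A D))` exceptions, and at most `C X ^ ε (A X) ^ (1/4)` exceptions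
have a member of radical `≤ A`; for instance `C X ^ (1/4 + ε)` exceptions are pairs of consecutive
integers.

Proof. Put `Y = min (X, c ^ (1/M))`, an upper bound for the radical. A member is called dusty if it
is divisible by `ρ ^ N` with `Y ^ (γ/2) < ρ ≤ Y ^ γ`; otherwise (solid) it is a product of powers of
at most `2/γ + 1` integers `≤ Y ^ (2N)` (starting library `N745`). Let `p`, `q`, `r` be the members
and `u_p`, `u_q` two radicals. If `r` is dusty, the Cauchy-Schwarz inequality over the residue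
classes modulo a power of `ρ` gives `√(u_p u_q)`. If `r` is solid and `p`, `q` are dusty, then for
given `q` the solid integer `r` is in a residue class modulo a high power of a divisor of `p`, which
leaves `Y ^ η` possibilities; this gives `u_q`, and also `u_p`, and
`min (u_p, u_q) ≤ √(u_p u_q)`. Two or three solid members: `Y ^ η`.
-/

set_option autoImplicit false

namespace Pool.Agent.Results.MP_2ec8a3_nt.SmallestRadicals

open Pool.Agent.X75A

/-- the radical: product of the distinct primes dividing `n` -/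
def radical (n : ℕ) : ℕ := ∏ p ∈ n.primeFactors, p

/-- the abc-triples `(a, b, c)`: positive integers, `a + b = c`, `gcd (a, b) = 1` -/
def IsTriple (t : ℕ × ℕ × ℕ) : Prop :=
  0 < t.1 ∧ 0 < t.2.1 ∧ Nat.Coprime t.1 t.2.1 ∧ t.1 + t.2.1 = t.2.2

/-- the radical of `abc` -/
def rad3 (t : ℕ × ℕ × ℕ) : ℕ := radical (t.1 * t.2.1 * t.2.2)

/-- the exceptions: the abc-triples with `rad (abc) ≤ X` and `rad (abc) ^ M ≤ c ≤ X ^ k` -/
def Large (M k X : ℕ) : Set (ℕ × ℕ × ℕ) :=
  {t | IsTriple t ∧ rad3 t ≤ X ∧ rad3 t ^ M ≤ t.2.2 ∧ t.2.2 ≤ X ^ k}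

/-- the smallest product of the radicals of two of the three members -/
def twoSmallest (t : ℕ × ℕ × ℕ) : ℕ :=
  min (radical t.1 * radical t.2.1)
    (min (radical t.2.1 * radical t.2.2) (radical t.1 * radical t.2.2))

theorem fin_aux (Z : Set (ℕ × ℕ × ℕ)) (N : ℕ)
    (h : ∀ t ∈ Z, t.1 + t.2.1 = t.2.2 ∧ t.2.2 ≤ N) : Z.Finite := by
  refine Set.Finite.subset (Finset.finite_toSet
      ((Finset.range (N + 1)) ×ˢ (Finset.range (N + 1)) ×ˢ (Finset.range (N + 1)))) ?_
  rintro ⟨a, b, c⟩ ht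
  obtain ⟨h4, h6⟩ := h _ ht
  simp only at h4 h6
  simp only [Finset.coe_product, Set.mem_prod, Finset.coe_range, Set.mem_Iio]
  omega

theorem large_fin (M k X : ℕ) : (Large M k X).Finite :=
  fin_aux _ (X ^ k) fun _ ht => ⟨ht.1.2.2.2, ht.2.2.2⟩

theorem exc_of {M k X : ℕ} {t : ℕ × ℕ × ℕ} (h : t ∈ Large M k X) : Exc M k X t := by
  obtain ⟨⟨ha, hb, hab, habc⟩, h1, h2, h3⟩ := h
  refine ⟨⟨ha, hb, by omega, habc, hab, ?_, ?_⟩, h1, h2, h3⟩
  · rw [← habc]
    simpa using hab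
  · rw [← habc]
    simpa using hab.symm

theorem radical_pos (n : ℕ) : 1 ≤ radical n := by
  unfold radical
  exact Nat.one_le_iff_ne_zero.2
    (Finset.prod_ne_zero_iff.2 fun p hp => (Nat.prime_of_mem_primeFactors hp).ne_zero)

theorem rad3_eq {t : ℕ × ℕ × ℕ} (h : IsTriple t) :
    rad3 t = radical t.1 * radical t.2.1 * radical t.2.2 := by
  obtain ⟨h1, h2, h3, h4⟩ := h
  have h5 : Nat.Coprime t.1 t.2.2 := by rw [← h4]; simpa using h3
  have h6 : Nat.Coprime t.2.1 t.2.2 := by rw [← h4]; simpa using h3.symm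
  unfold rad3 radical
  rw [Nat.Coprime.primeFactors_mul (Nat.Coprime.mul_left h5 h6), Nat.Coprime.primeFactors_mul h3,
    Finset.prod_union, Finset.prod_union]
  · exact h3.disjoint_primeFactors
  · rw [← Nat.Coprime.primeFactors_mul h3]
    exact (Nat.Coprime.mul_left h5 h6).disjoint_primeFactors

theorem twoSmall_of {Z : ℕ} {t : ℕ × ℕ × ℕ} (h : twoSmallest t ≤ Z) : TwoSmall Z t := by
  unfold twoSmallest at h
  rcases min_le_iff.1 h with h | h
  · exact ⟨0, 1, by decide, h⟩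
  rcases min_le_iff.1 h with h | h
  · exact ⟨1, 2, by decide, h⟩
  · exact ⟨0, 2, by decide, h⟩

/-- with a member of radical at most `A` the smallest product is at most `√(A X)` -/
theorem small_member {X A : ℕ} {t : ℕ × ℕ × ℕ} (ht : IsTriple t) (hX : rad3 t ≤ X)
    (hA : radical t.1 ≤ A ∨ radical t.2.1 ≤ A ∨ radical t.2.2 ≤ A) :
    twoSmallest t ^ 2 ≤ A * X := by
  rw [rad3_eq ht] at hX
  have h1 : twoSmallest t ≤ radical t.1 * radical t.2.1 := min_le_left _ _
  have h2 : twoSmallest t ≤ radical t.2.1 * radical t.2.2 :=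
    (min_le_right _ _).trans (min_le_left _ _)
  have h3 : twoSmallest t ≤ radical t.1 * radical t.2.2 :=
    (min_le_right _ _).trans (min_le_right _ _)
  rcases hA with hA | hA | hA
  · calc twoSmallest t ^ 2 = twoSmallest t * twoSmallest t := sq _
      _ ≤ (radical t.1 * radical t.2.1) * (radical t.1 * radical t.2.2) := Nat.mul_le_mul h1 h3
      _ = radical t.1 * (radical t.1 * radical t.2.1 * radical t.2.2) := by ring
      _ ≤ A * X := Nat.mul_le_mul hA hX
  · calc twoSmallest t ^ 2 = twoSmallest t * twoSmallest t := sq _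
      _ ≤ (radical t.1 * radical t.2.1) * (radical t.2.1 * radical t.2.2) := Nat.mul_le_mul h1 h2
      _ = radical t.2.1 * (radical t.1 * radical t.2.1 * radical t.2.2) := by ring
      _ ≤ A * X := Nat.mul_le_mul hA hX
  · calc twoSmallest t ^ 2 = twoSmallest t * twoSmallest t := sq _
      _ ≤ (radical t.2.1 * radical t.2.2) * (radical t.1 * radical t.2.2) := Nat.mul_le_mul h2 h3
      _ = radical t.2.2 * (radical t.1 * radical t.2.1 * radical t.2.2) := by ring
      _ ≤ A * X := Nat.mul_le_mul hA hX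

theorem main_bound {M k X Z : ℕ} {C ε : ℝ}
    (h : ∀ T : Finset (ℕ × ℕ × ℕ), (∀ t ∈ T, Exc M k X t ∧ TwoSmall Z t) →
      (T.card : ℝ) ≤ C * (X : ℝ) ^ ε * Real.sqrt Z) :
    ({t ∈ Large M k X | twoSmallest t ≤ Z}.ncard : ℝ) ≤ C * (X : ℝ) ^ ε * Real.sqrt Z := by
  have hfin : {t ∈ Large M k X | twoSmallest t ≤ Z}.Finite :=
    (large_fin M k X).subset fun t ht => ht.1
  rw [Set.ncard_eq_toFinset_card _ hfin]
  apply h
  intro t ht
  rw [Set.Finite.mem_toFinset] at ht
  exact ⟨exc_of ht.1, twoSmall_of ht.2⟩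

/-- **Exceptions counted by the two smallest radicals.** For every `ε > 0` there is `M` such that
for every `k` there is `C` such that (1) for all `X, Z ≥ 1` at most `C X ^ ε √Z` abc-triples with
`rad (abc) ≤ X` and `rad (abc) ^ M ≤ c ≤ X ^ k` have two members the product of whose radicals is at
most `Z`; (2) at most `C (A B D) ^ ε √(min (A B, B D, A D))` abc-triples with
`rad (abc) ^ M ≤ c ≤ (A B D) ^ k` satisfy `rad a ≤ A`, `rad b ≤ B`, `rad c ≤ D`; (3) at most
`C X ^ ε (A X) ^ (1/4)` of the triples in (1) have a member with radical at most `A`. -/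
theorem result (ε : ℝ) (hε : 0 < ε) : ∃ M : ℕ, ∀ k : ℕ, ∃ C : ℝ,
    (∀ X Z : ℕ, 1 ≤ X → 1 ≤ Z → (Large M k X).Finite ∧
      ({t ∈ Large M k X | twoSmallest t ≤ Z}.ncard : ℝ) ≤ C * (X : ℝ) ^ ε * Real.sqrt Z) ∧
    (∀ A B D : ℕ, 1 ≤ A → 1 ≤ B → 1 ≤ D →
      ({t | IsTriple t ∧ rad3 t ^ M ≤ t.2.2 ∧ t.2.2 ≤ (A * B * D) ^ k ∧ radical t.1 ≤ A ∧
        radical t.2.1 ≤ B ∧ radical t.2.2 ≤ D}.ncard : ℝ) ≤
      C * ((A * B * D : ℕ) : ℝ) ^ ε * Real.sqrt ((min (A * B) (min (B * D) (A * D)) : ℕ) : ℝ)) ∧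
    (∀ X A : ℕ, 1 ≤ X → 1 ≤ A →
      ({t ∈ Large M k X | radical t.1 ≤ A ∨ radical t.2.1 ≤ A ∨ radical t.2.2 ≤ A}.ncard : ℝ) ≤
      C * (X : ℝ) ^ ε * ((A : ℝ) * X) ^ ((1 : ℝ) / 4)) := by
  obtain ⟨M, -, h⟩ := count_two_small ε hε
  refine ⟨M, fun k => ?_⟩
  obtain ⟨C, hC, h⟩ := h k
  refine ⟨C, fun X Z hX hZ => ⟨large_fin M k X, main_bound (h X Z hX hZ)⟩, ?_, ?_⟩
  · intro A B D hA hB hD
    have hX : 1 ≤ A * B * D := Nat.mul_pos (Nat.mul_pos hA hB) hD
    have hZ : 1 ≤ min (A * B) (min (B * D) (A * D)) :=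
      le_min (Nat.mul_pos hA hB) (le_min (Nat.mul_pos hB hD) (Nat.mul_pos hA hD))
    refine le_trans ?_ (main_bound (h (A * B * D) (min (A * B) (min (B * D) (A * D))) hX hZ))
    have hsub : {t | IsTriple t ∧ rad3 t ^ M ≤ t.2.2 ∧ t.2.2 ≤ (A * B * D) ^ k ∧ radical t.1 ≤ A ∧
        radical t.2.1 ≤ B ∧ radical t.2.2 ≤ D} ⊆
        {t ∈ Large M k (A * B * D) | twoSmallest t ≤ min (A * B) (min (B * D) (A * D))} := by
      rintro t ⟨ht, h1, h2, h3, h4, h5⟩
      refine ⟨⟨ht, ?_, h1, h2⟩, ?_⟩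
      · rw [rad3_eq ht]
        exact Nat.mul_le_mul (Nat.mul_le_mul h3 h4) h5
      · unfold twoSmallest
        exact min_le_min (Nat.mul_le_mul h3 h4)
          (min_le_min (Nat.mul_le_mul h4 h5) (Nat.mul_le_mul h3 h5))
    exact_mod_cast Set.ncard_le_ncard hsub ((large_fin M k _).subset fun t ht => ht.1)
  · intro X A hX hA
    have hZ : 1 ≤ Nat.sqrt (A * X) := Nat.le_sqrt.2 (Nat.mul_pos hA hX)
    refine le_trans ?_ ((main_bound (h X (Nat.sqrt (A * X)) hX hZ)).trans ?_)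
    · have hsub : {t ∈ Large M k X | radical t.1 ≤ A ∨ radical t.2.1 ≤ A ∨ radical t.2.2 ≤ A} ⊆
          {t ∈ Large M k X | twoSmallest t ≤ Nat.sqrt (A * X)} := by
        rintro t ⟨ht, h1⟩
        refine ⟨ht, Nat.le_sqrt'.2 (small_member ht.1 ht.2.1 h1)⟩
      exact_mod_cast Set.ncard_le_ncard hsub ((large_fin M k _).subset fun t ht => ht.1)
    · apply mul_le_mul_of_nonneg_left _ (by positivity)
      have h1 : ((Nat.sqrt (A * X) : ℕ) : ℝ) ≤ ((A : ℝ) * X) ^ ((1 : ℝ) / 2) := by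
        rw [← Real.sqrt_eq_rpow]
        have := Real.nat_sqrt_le_real_sqrt (a := A * X)
        rwa [Nat.cast_mul] at this
      rw [Real.sqrt_eq_rpow]
      calc ((Nat.sqrt (A * X) : ℕ) : ℝ) ^ ((1 : ℝ) / 2)
          ≤ (((A : ℝ) * X) ^ ((1 : ℝ) / 2)) ^ ((1 : ℝ) / 2) :=
            Real.rpow_le_rpow (Nat.cast_nonneg _) h1 (by norm_num)
        _ = ((A : ℝ) * X) ^ ((1 : ℝ) / 4) := by
            rw [← Real.rpow_mul (by positivity)]
            norm_num

end Pool.Agent.Results.MP_2ec8a3_nt.SmallestRadicals
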